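import Mathlib
import Pool.Agent.H67.TP.ChainH

/-!
Odd trees on `2^n` vertices and their iterated prunings: a sufficient condition for being
set-sequential in terms of the sizes of the prunings and the numbers of their vertices of even
degree.
-/

set_option autoImplicit false

open Finset

namespace Pool.Agent.Results.MP_3cf290_co.IteratedPruning

open Pool.Agent.H57.SS

/-- The set-sequential property of a tree on `2^n` vertices, as in the problem. -/
def SetSequential {V : Type} (T : SimpleGraph V) (n : ℕ) : Prop :=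
  ∃ g : V ⊕ T.edgeSet → (Fin (n + 1) → ZMod 2),
    Function.Injective g ∧ (∀ x, g x ≠ 0) ∧
    ∀ (a b : V) (h : T.Adj a b),
      g (Sum.inr ⟨s(a, b), (SimpleGraph.mem_edgeSet T).2 h⟩) = g (Sum.inl a) + g (Sum.inl b)

/-- The vertices are in bijection with `F_2^n`, and the sums over the edges are pairwise
distinct. -/
def SetGraceful {V : Type} (T : SimpleGraph V) (n : ℕ) : Prop :=
  ∃ f : V → (Fin n → ZMod 2), Function.Bijective f ∧
    ∀ a b c d : V, T.Adj a b → T.Adj c d → f a + f b = f c + f d → s(a, b) = s(c, d)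

/-- The set `P_i` of the vertices of `T` which are left after `i` prunings: a pruning removes all
vertices with at most one neighbour among the vertices which are still present. -/
def pruned {V : Type} [Fintype V] (T : SimpleGraph V) [DecidableRel T.Adj] : ℕ → Finset V
  | 0 => univ
  | (i + 1) => (pruned T i).filter (fun v => 2 ≤ ((pruned T i).filter (fun u => T.Adj v u)).card)

/-- The number `e_i` of the vertices of `P_i` with an even number of neighbours in `P_i`. -/
def e {V : Type} [Fintype V] (T : SimpleGraph V) [DecidableRel T.Adj] (i : ℕ) : ℕ :=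
  ((pruned T i).filter (fun v => Even ((pruned T i).filter (fun u => T.Adj v u)).card)).card

/-- The numbers `c_j`: for `j = 1` the number of the vertices which are in `P_2` or adjacent to a
vertex of `P_2`, and `|P_j| + e_j` for `j ≠ 1`. -/
def c {V : Type} [Fintype V] [DecidableEq V] (T : SimpleGraph V) [DecidableRel T.Adj]
    (j : ℕ) : ℕ :=
  if j = 1 then (univ.filter (fun v => v ∈ pruned T 2 ∨ ∃ u ∈ pruned T 2, T.Adj v u)).card
  else (pruned T j).card + e T j

/-- The constant `M = min(2^84, 5000 n)`. -/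
def M (n : ℕ) : ℕ := min (2 ^ 84) (5000 * n)

theorem pruned_eq {V : Type} [Fintype V] (T : SimpleGraph V) [DecidableRel T.Adj] (i : ℕ) :
    pruned T i = Pool.Agent.H67.TP.lev T i := by
  induction i with
  | zero => rfl
  | succ i ih => rw [pruned, Pool.Agent.H67.TP.lev, ih]

theorem e_eq {V : Type} [Fintype V] (T : SimpleGraph V) [DecidableRel T.Adj] (i : ℕ) :
    e T i = (Pool.Agent.H67.TP.evenDeg T (Pool.Agent.H67.TP.lev T i)).card := by
  rw [e, pruned_eq, Pool.Agent.H67.TP.evenDeg]

theorem c_eq {V : Type} [Fintype V] [DecidableEq V] (T : SimpleGraph V) [DecidableRel T.Adj]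
    (j : ℕ) : c T j = Pool.Agent.H67.TP.cc T j := by
  rw [c, Pool.Agent.H67.TP.cc, Pool.Agent.H67.TP.nbhd, e_eq]
  simp only [pruned_eq]

/-- Let `T` be a tree on `2^n` vertices in which all degrees are odd, let `P_0 = V` and let
`P_{i+1}` be the set of the vertices of `P_i` with at least two neighbours in `P_i`. Let `e_i` be
the number of the vertices of `P_i` with an even number of neighbours in `P_i`, let `c_1` be the
number of the vertices in or adjacent to `P_2`, let `c_i = |P_i| + e_i` for `i ≠ 1`, and let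
`M = min(2^84, 5000 n)`. Assume that for some `m ≥ 2`
* for `2 ≤ j < m` we have `e_{j-1} ≤ 1` or `2 |P_j| + 2 e_{j-1} ≤ c_{j-1}`, and
* `e_m ≤ 1` or `2 |P_m| + 2 e_m ≤ c_{m-1}`, and
* `e_{m-1} ≤ 1` or `2 |P_m| + 2 e_{m-1} ≤ c_{m-1}` or
  `2 |P_{m-1}| + 2 e_{m-1} ≤ |P_{m-2}| + e_{m-2}`, and
* `|P_{m+1}| ≤ 2`, or every vertex of `P_m` has at most two neighbours in `P_m`, or
  `2 M |P_m| ≤ c_{m-1}`.
Then `T` is set-sequential, and even set-graceful. -/
theorem result (n : ℕ) (V : Type) [Fintype V] [DecidableEq V] (T : SimpleGraph V)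
    [DecidableRel T.Adj] (hT : T.IsTree) (hV : Fintype.card V = 2 ^ n)
    (hodd : ∀ v : V, Odd (T.degree v)) (m : ℕ) (hm : 2 ≤ m)
    (h1 : ∀ j, 2 ≤ j → j < m → e T (j - 1) ≤ 1 ∨
      2 * (pruned T j).card + 2 * e T (j - 1) ≤ c T (j - 1))
    (h2 : e T m ≤ 1 ∨ 2 * (pruned T m).card + 2 * e T m ≤ c T (m - 1))
    (h3 : e T (m - 1) ≤ 1 ∨ 2 * (pruned T m).card + 2 * e T (m - 1) ≤ c T (m - 1) ∨
      2 * (pruned T (m - 1)).card + 2 * e T (m - 1) ≤ (pruned T (m - 2)).card + e T (m - 2))
    (h4 : (pruned T (m + 1)).card ≤ 2 ∨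
      (∀ v ∈ pruned T m, ((pruned T m).filter (fun u => T.Adj v u)).card ≤ 2) ∨
      2 * M n * (pruned T m).card ≤ c T (m - 1)) :
    SetSequential T n ∧ SetGraceful T n := by
  have key : SetGraceful T n := by
    simp only [pruned_eq, e_eq, c_eq] at h1 h2 h3 h4
    refine Pool.Agent.H67.TP.graceful_gen hT hodd hV (m := m) h1 (fun _ => ?_) (fun _ => ?_) h4
      (by omega)
    · simpa only [Nat.mul_add] using h2
    · simpa only [Nat.mul_add] using h3
  exact ⟨exists_setSequential key, key⟩

end Pool.Agent.Results.MP_3cf290_co.IteratedPruning
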