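import Mathlib
import Pool.Agent.H67.CT.Asm
import Pool.Agent.H67.CT.CDef

/-!
Every odd caterpillar on `2^n` vertices is set-sequential.
-/

set_option autoImplicit false

open Finset

namespace Pool.Agent.Results.MP_3cf290_co.OddCaterpillars

open Pool.Agent.H57.SS

/-- The set-sequential property of a tree on `2^n` vertices, as in the problem. -/
def SetSequential {V : Type} (T : SimpleGraph V) (n : ℕ) : Prop :=
  ∃ g : V ⊕ T.edgeSet → (Fin (n + 1) → ZMod 2),
    Function.Injective g ∧ (∀ x, g x ≠ 0) ∧
    ∀ (a b : V) (h : T.Adj a b),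
      g (Sum.inr ⟨s(a, b), (SimpleGraph.mem_edgeSet T).2 h⟩) = g (Sum.inl a) + g (Sum.inl b)

/-- The vertices are in bijection with `F_2^n`, and the sums over the edges are pairwise
distinct. -/
def SetGraceful {V : Type} (T : SimpleGraph V) (n : ℕ) : Prop :=
  ∃ f : V → (Fin n → ZMod 2), Function.Bijective f ∧
    ∀ a b c d : V, T.Adj a b → T.Adj c d → f a + f b = f c + f d → s(a, b) = s(c, d)

/-- `T` has a path such that every vertex of `T` is on the path or adjacent to a vertex of the
path. -/
def Caterpillar {V : Type} (T : SimpleGraph V) : Prop :=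
  ∃ (u v : V) (q : T.Walk u v), q.IsPath ∧ ∀ w, w ∈ q.support ∨ ∃ x ∈ q.support, T.Adj x w

/-- Every odd caterpillar on `2^n` vertices is set-sequential, and even set-graceful. -/
theorem result (n : ℕ) (V : Type) [Fintype V] [DecidableEq V] (T : SimpleGraph V)
    [DecidableRel T.Adj] (hT : T.IsTree) (hV : Fintype.card V = 2 ^ n)
    (hodd : ∀ v : V, Odd (T.degree v)) (hcat : Caterpillar T) :
    SetSequential T n ∧ SetGraceful T n := by
  obtain ⟨r, hr⟩ := Pool.Agent.H67.CT.plab_caterpillar hT hodd
    (Pool.Agent.H67.CT.local_of_path hT hcat) hV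
  have key : SetGraceful T n := exists_graceful hT r hV hr
  exact ⟨exists_setSequential key, key⟩

end Pool.Agent.Results.MP_3cf290_co.OddCaterpillars
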