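import Mathlib
import Pool.Agent.H60.LN.LinTree
import Pool.Agent.H60.FN.TreeB
import Pool.Agent.H60.FN.TreeC

/-!
There is an absolute constant `c > 0` (namely `c = 2^(-84)`) such that every odd tree on `2^n`
vertices with at most `c * 2^n` non-leaves is set-sequential. The same holds if at most
`2^n / (5000 n)` vertices are not leaves, and if a positive proportion of the non-leaves has
many leaf neighbours (with better constants).
-/

set_option autoImplicit false

open Finset

namespace Pool.Agent.Results.MP_3cf290_co.PositiveProportion

open Pool.Agent.H57.SS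

/-- The set-sequential property of a tree on `2^n` vertices, as in the problem. -/
def SetSequential {V : Type} (T : SimpleGraph V) (n : ℕ) : Prop :=
  ∃ g : V ⊕ T.edgeSet → (Fin (n + 1) → ZMod 2),
    Function.Injective g ∧ (∀ x, g x ≠ 0) ∧
    ∀ (a b : V) (h : T.Adj a b),
      g (Sum.inr ⟨s(a, b), (SimpleGraph.mem_edgeSet T).2 h⟩) = g (Sum.inl a) + g (Sum.inl b)

/-- The vertices are in bijection with `F_2^n`, and the sums over the edges are pairwise
distinct. -/
def SetGraceful {V : Type} (T : SimpleGraph V) (n : ℕ) : Prop :=
  ∃ f : V → (Fin n → ZMod 2), Function.Bijective f ∧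
    ∀ a b c d : V, T.Adj a b → T.Adj c d → f a + f b = f c + f d → s(a, b) = s(c, d)

/-- Let `T` be a tree on `2^n` vertices in which all degrees are odd, and let `I` be the number
of the vertices which are not leaves. Assume that
* `2^84 * I ≤ 2^n`, or
* `5000 * n * I ≤ 2^n`, or
* for some `t`, the number `K` of the non-leaves with at least `t` leaf neighbours satisfies
  `4608 * I ≤ t * K` (for instance, every non-leaf has at least `4608` leaf neighbours).
Then `T` is set-sequential, and even set-graceful. -/
theorem result (n : ℕ) (V : Type) [Fintype V] [DecidableEq V] (T : SimpleGraph V)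
    [DecidableRel T.Adj] (hT : T.IsTree) (hV : Fintype.card V = 2 ^ n)
    (hodd : ∀ v : V, Odd (T.degree v))
    (h : 2 ^ 84 * (univ.filter (fun v => T.degree v ≠ 1)).card ≤ 2 ^ n ∨
      5000 * n * (univ.filter (fun v => T.degree v ≠ 1)).card ≤ 2 ^ n ∨
      ∃ t : ℕ, 4608 * (univ.filter (fun v => T.degree v ≠ 1)).card ≤
        t * (univ.filter (fun w => T.degree w ≠ 1 ∧
          t ≤ (univ.filter (fun v => T.Adj w v ∧ T.degree v = 1)).card)).card) :
    SetSequential T n ∧ SetGraceful T n := by
  have key : SetGraceful T n := by
    rcases h with h | h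
    · exact Pool.Agent.H60.LN.graceful_linear hT hodd hV h
    · have h' : ∃ t : ℕ, 4608 * (univ.filter (fun v => T.degree v ≠ 1)).card ≤
          t * (univ.filter (fun w => T.degree w ≠ 1 ∧
            t ≤ (univ.filter (fun v => T.Adj w v ∧ T.degree v = 1)).card)).card := by
        rcases h with h | h
        · exact Pool.Agent.H60.FN.exists_scale hT hodd hV h
        · exact h
      obtain ⟨t, ht⟩ := h'
      exact Pool.Agent.H60.FN.graceful_of_scale hT hodd hV ht
  exact ⟨exists_setSequential key, key⟩

end Pool.Agent.Results.MP_3cf290_co.PositiveProportion
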