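import Mathlib
import Pool.Agent.H57.SS.TwoCenters
import Pool.Agent.H67.TP.Seven

/-!
Odd trees on `2^n` vertices of diameter at most `7` are set-sequential (`n ≥ 8` if the diameter is
`6` or `7`).
-/

set_option autoImplicit false

open Finset

namespace Pool.Agent.Results.MP_3cf290_co.ShallowTrees

open Pool.Agent.H57.SS

/-- The set-sequential property of a tree on `2^n` vertices, as in the problem. -/
def SetSequential {V : Type} (T : SimpleGraph V) (n : ℕ) : Prop :=
  ∃ g : V ⊕ T.edgeSet → (Fin (n + 1) → ZMod 2),
    Function.Injective g ∧ (∀ x, g x ≠ 0) ∧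
    ∀ (a b : V) (h : T.Adj a b),
      g (Sum.inr ⟨s(a, b), (SimpleGraph.mem_edgeSet T).2 h⟩) = g (Sum.inl a) + g (Sum.inl b)

/-- The vertices are in bijection with `F_2^n`, and the sums over the edges are pairwise
distinct. -/
def SetGraceful {V : Type} (T : SimpleGraph V) (n : ℕ) : Prop :=
  ∃ f : V → (Fin n → ZMod 2), Function.Bijective f ∧
    ∀ a b c d : V, T.Adj a b → T.Adj c d → f a + f b = f c + f d → s(a, b) = s(c, d)

/-- Let `T` be a tree on `2^n` vertices in which all degrees are odd. Assume that the diameter of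
`T` is at most `7` and `n ≥ 8`, or that the diameter of `T` is at most `5`. Then `T` is
set-sequential, and even set-graceful. -/
theorem result (n : ℕ) (V : Type) [Fintype V] [DecidableEq V] (T : SimpleGraph V)
    [DecidableRel T.Adj] (hT : T.IsTree) (hV : Fintype.card V = 2 ^ n)
    (hodd : ∀ v : V, Odd (T.degree v))
    (h : (∀ u v, T.dist u v ≤ 5) ∨ (8 ≤ n ∧ ∀ u v, T.dist u v ≤ 7)) :
    SetSequential T n ∧ SetGraceful T n := by
  have key : SetGraceful T n := by
    rcases h with h | ⟨hn, h⟩
    · obtain ⟨r, z, hzr, hpz, hin⟩ := exists_centers hT hodd h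
      exact exists_graceful hT r hV (plab_twoCenters hT r z hodd hV hzr hpz hin)
    · exact Pool.Agent.H67.TP.graceful_seven hT hodd hV hn h
  exact ⟨exists_setSequential key, key⟩

end Pool.Agent.Results.MP_3cf290_co.ShallowTrees
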